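import Pool.Agent.Helper26.GT.Defs
import Pool.Agent.Helper26.MQ.Idx

/-!
# Random maps with a dominant last component: definitions
-/

set_option autoImplicit false

namespace Pool.Agent.Helper26.GG

open MvPolynomial Pool.Agent.Helper26.GT Pool.Agent.Helper86.MQ

/-- the coefficients of a map whose last component has degree at most `d` and whose other components
have degree at most `e` -/
abbrev Gdx (m d e : ℕ) : Type :=
  (i : Fin (m + 1)) × {s : Fin (m + 1) →₀ ℕ // s.degree ≤ wd d e i}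

/-- the special coefficient: the one of `x_N ^ d` in the last component -/
noncomputable def sp (m d e : ℕ) : Gdx m d e :=
  ⟨Fin.last m, ⟨Finsupp.single (Fin.last m) d, by
    rw [Finsupp.degree_single, wd, if_pos rfl]⟩⟩

section

variable {R : Type*} [CommRing R] {m d e : ℕ}

/-- the polynomials with coefficient array `c` -/
noncomputable def gP (c : Gdx m d e → R) (i : Fin (m + 1)) : MvPolynomial (Fin (m + 1)) R :=
  ∑ s : {s : Fin (m + 1) →₀ ℕ // s.degree ≤ wd d e i},
    monomial (s : Fin (m + 1) →₀ ℕ) (c ⟨i, s⟩)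

/-- the forms of degree `d`, `e` -/
noncomputable def gF (c : Gdx m d e → R) (i : Fin (m + 1)) : MvPolynomial (Fin (m + 1)) R :=
  homogeneousComponent (wd d e i) (gP c i)

theorem coeff_gP (c : Gdx m d e → R) (i : Fin (m + 1))
    (s : {s : Fin (m + 1) →₀ ℕ // s.degree ≤ wd d e i}) :
    coeff (s : Fin (m + 1) →₀ ℕ) (gP c i) = c ⟨i, s⟩ := by
  classical
  rw [gP, coeff_sum]
  simp only [coeff_monomial]
  rw [Finset.sum_eq_single s]
  · simp
  · intro b _ hb
    rw [if_neg]
    exact fun h => hb (Subtype.ext h)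
  · simp

theorem coeff_gP_of_gt (c : Gdx m d e → R) (i : Fin (m + 1))
    {s : Fin (m + 1) →₀ ℕ} (hs : ¬ s.degree ≤ wd d e i) : coeff s (gP c i) = 0 := by
  classical
  rw [gP, coeff_sum]
  refine Finset.sum_eq_zero fun b _ => ?_
  rw [coeff_monomial, if_neg]
  rintro rfl
  exact hs b.2

/-- Maps with the bounds of the degrees are given by arrays. -/
theorem gP_coeff (P : Fin (m + 1) → MvPolynomial (Fin (m + 1)) R)
    (hP : ∀ i (s : Fin (m + 1) →₀ ℕ), ¬ s.degree ≤ wd d e i → coeff s (P i) = 0) :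
    gP (fun k : Gdx m d e => coeff (k.2 : Fin (m + 1) →₀ ℕ) (P k.1)) = P := by
  funext i
  ext s
  by_cases hs : s.degree ≤ wd d e i
  · exact coeff_gP (fun k : Gdx m d e => coeff (k.2 : Fin (m + 1) →₀ ℕ) (P k.1)) i ⟨s, hs⟩
  · rw [coeff_gP_of_gt _ _ hs, hP i s hs]

/-- no orbit stays in the hyperplane `x_N = 0` -/
def T1 (c : Gdx m d e → R) : Prop :=
  ∀ x : Fin (m + 1) → R, x (Fin.last m) = 0 → ∃ k, (pm (gP c))^[k] x (Fin.last m) ≠ 0

/-- no nonzero orbit of the forms stays in the hyperplane `x_N = 0` -/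
def T2 (c : Gdx m d e → R) : Prop :=
  ∀ x : Fin (m + 1) → R, x ≠ 0 → x (Fin.last m) = 0 → ∃ k, (pm (gF c))^[k] x (Fin.last m) ≠ 0

end

section

variable {F : Type*} [Field F] {m d e : ℕ}

/-- the matrix `A` of the coefficients of `x_k x_N ^ (e - 1)` in the first components is invertible
and the vector of the coefficients of `x_N ^ e` is a cyclic vector of it -/
def T3 (c : Gdx m d e → F) : Prop :=
  (cA e (gP c)).det ≠ 0 ∧
    LinearIndependent F fun j : Fin m => (cA e (gP c) ^ (j : ℕ)).mulVec (cc e (gP c))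

end

section

variable {p : ℕ} [Fact p.Prime] {m : ℕ}

/-- The bounds of the degrees; all coefficients are `p`-integral, except for the coefficient of
`x_N ^ d` in the last component, which has valuation `-1`. -/
structure GPre (p : ℕ) [Fact p.Prime] (m d e : ℕ)
    (Φ : Fin (m + 1) → MvPolynomial (Fin (m + 1)) ℚ_[p]) : Prop where
  deg : ∀ i, (Φ i).totalDegree ≤ wd d e i
  one : ‖coeff (Finsupp.single (Fin.last m) d) (Φ (Fin.last m))‖ = (p : ℝ)
  int : ∀ i s, ¬ (i = Fin.last m ∧ s = Finsupp.single (Fin.last m) d) → ‖coeff s (Φ i)‖ ≤ 1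

/-- the coefficients modulo `p`, with the exception of the special one -/
def GRed {d e : ℕ} (Φ : Fin (m + 1) → MvPolynomial (Fin (m + 1)) ℚ_[p])
    (c : Gdx m d e → ZMod p) : Prop :=
  ∀ k : Gdx m d e, k ≠ sp m d e →
    ∃ z : ℤ_[p], (z : ℚ_[p]) = coeff k.2.1 (Φ k.1) ∧ PadicInt.toZMod z = c k

/-- the region of the fast escaping points -/
def GEsc (x : Fin (m + 1) → ℚ_[p]) : Prop :=
  (p : ℝ) ≤ ‖x (Fin.last m)‖ ∧ ∀ i, ‖x i‖ ≤ ‖x (Fin.last m)‖

end

end Pool.Agent.Helper26.GG
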