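import Pool.Agent.Helper26.GG.Defs
import Pool.Agent.Helper87.MQ.Density

/-!
# Density for maps with a dominant last component
-/

set_option autoImplicit false

namespace Pool.Agent.Helper26.GG

open MvPolynomial Pool.Agent.Helper26.GT Pool.Agent.Helper86.MQ
open Pool.Agent.Helper87.MQ (toQp ratArr RatGood ratArr_finite rat_density norm_pole red_lift
  totalDegree_le_of_coeff coeff_eq_zero_of_gt)

/-- The self-maps of affine `(m + 1)`-space over `ℚ` whose last component has degree at most `d`,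
whose other components have degree at most `e`, and all of whose coefficients have height at most
`B`. -/
def gbox (m d e B : ℕ) : Set (Fin (m + 1) → MvPolynomial (Fin (m + 1)) ℚ) :=
  {Φ | ∀ i, (Φ i).totalDegree ≤ wd d e i ∧
    ∀ s, |(coeff s (Φ i)).num| ≤ (B : ℤ) ∧ (coeff s (Φ i)).den ≤ B}

theorem gP_injective {R : Type*} [CommRing R] (m d e : ℕ) :
    Function.Injective (fun (c : Gdx m d e → R) => gP c) := by
  intro c c' h
  funext k
  have h1 := congrArg (coeff (k.2 : Fin (m + 1) →₀ ℕ)) (congrFun h k.1)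
  dsimp only at h1
  rwa [coeff_gP, coeff_gP] at h1

theorem gbox_eq (m d e B : ℕ) (hB : 1 ≤ B) :
    gbox m d e B = (fun (c : Gdx m d e → ℚ) => gP c) '' ratArr (Gdx m d e) B := by
  ext Φ
  constructor
  · intro h
    refine ⟨fun k => coeff (k.2 : Fin (m + 1) →₀ ℕ) (Φ k.1), fun k => (h k.1).2 _, ?_⟩
    exact gP_coeff Φ fun i s hs => coeff_eq_zero_of_gt _ _ (h i).1 s hs
  · rintro ⟨c, hc, rfl⟩ i
    refine ⟨totalDegree_le_of_coeff _ _ fun s hs => coeff_gP_of_gt c i hs, fun s => ?_⟩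
    by_cases hs : s.degree ≤ wd d e i
    · have h1 := coeff_gP c i ⟨s, hs⟩
      dsimp only at h1 ⊢
      rw [h1]
      exact hc _
    · dsimp only
      rw [coeff_gP_of_gt c i hs]
      simpa using hB

theorem gpre_of_ratGood (m d e q : ℕ) [hq : Fact q.Prime]
    (BB : Finset (Gdx m d e → ZMod q)) (v : Gdx m d e → ℚ) (h : RatGood q (sp m d e) BB v) :
    ∃ c, c ∉ BB ∧ GPre q m d e (toQp q (gP v)) ∧ GRed (toQp q (gP v)) c := by
  obtain ⟨h1, h2, h3, h4, c, hc, h5⟩ := h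
  have hcoef : ∀ k : Gdx m d e, coeff (k.2 : Fin (m + 1) →₀ ℕ) (toQp q (gP v) k.1) =
      ((v k : ℚ) : ℚ_[q]) := by
    intro k
    rw [toQp, coeff_map, coeff_gP]
    exact eq_ratCast (algebraMap ℚ ℚ_[q]) (v k)
  refine ⟨c, hc, ⟨?_, ?_, ?_⟩, ?_⟩
  · intro i
    apply totalDegree_le_of_coeff
    intro s hs
    rw [toQp, coeff_map, coeff_gP_of_gt v i hs, map_zero]
  · have := hcoef (sp m d e)
    have h6 : coeff (Finsupp.single (Fin.last m) d) (toQp q (gP v) (Fin.last m)) =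
        ((v (sp m d e) : ℚ) : ℚ_[q]) := this
    rw [h6]
    exact norm_pole q _ h1 h2 h3
  · intro i s hs
    by_cases hsd : s.degree ≤ wd d e i
    · have := hcoef ⟨i, ⟨s, hsd⟩⟩
      dsimp only at this
      rw [this]
      refine Padic.norm_rat_le_one (h4 _ fun h6 => hs ?_)
      rw [sp] at h6
      have h7 : i = Fin.last m := congrArg Sigma.fst h6
      subst h7
      refine ⟨rfl, ?_⟩
      have h8 := eq_of_heq (Sigma.mk.inj h6).2
      exact congrArg Subtype.val h8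
    · rw [toQp, coeff_map, coeff_gP_of_gt v i hsd, map_zero, norm_zero]
      exact zero_le_one
  · intro k hk
    rw [hcoef k]
    exact red_lift q (v k) (h4 k hk) (c k) (h5 k hk)

/-- **Density.** -/
theorem g_density (m d e C : ℕ)
    (Pri : Set ℕ) (hdiv : ¬ Summable (fun q : Pri => (1 : ℝ) / (q : ℕ))) (hPri : ∀ q ∈ Pri, q.Prime)
    (M₀ : ℕ) (ε : ℝ) (hε : 0 < ε) :
    ∃ (P : Finset ℕ) (K : ℕ), (∀ q ∈ P, q ∈ Pri ∧ q.Prime ∧ M₀ ≤ q) ∧
      ∀ BB : ∀ (q : ℕ) [Fact q.Prime], Finset (Gdx m d e → ZMod q),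
        (∀ (q : ℕ) [Fact q.Prime], (BB q).card * q ≤ C * q ^ Fintype.card (Gdx m d e)) →
      ∀ B : ℕ, K ≤ B → (gbox m d e B).Finite ∧
      (1 - ε) * ((gbox m d e B).ncard : ℝ) ≤
        (({Φ ∈ gbox m d e B | ∃ q ∈ P, ∃ _ : Fact q.Prime, ∃ c, c ∉ BB q ∧
          GPre q m d e (toQp q Φ) ∧ GRed (toQp q Φ) c}).ncard : ℝ) := by
  classical
  obtain ⟨P, K, hP, h⟩ := rat_density (J := Gdx m d e) (sp m d e) C Pri hdiv hPri M₀ ε hε
  refine ⟨P, max K 1, hP, ?_⟩
  intro BB hBB B hB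
  have hfin : (gbox m d e B).Finite := by
    rw [gbox_eq m d e B ((le_max_right _ _).trans hB)]
    exact (ratArr_finite B).image _
  refine ⟨hfin, ?_⟩
  have h1 := h BB hBB B ((le_max_left _ _).trans hB)
  have h2 : (gbox m d e B).ncard = (ratArr (Gdx m d e) B).ncard := by
    rw [gbox_eq m d e B ((le_max_right _ _).trans hB)]
    exact Set.ncard_image_of_injective _ (gP_injective m d e)
  rw [h2]
  refine h1.trans ?_
  rw [← Set.ncard_image_of_injective _ (gP_injective (R := ℚ) m d e)]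
  have hsub : (fun (c : Gdx m d e → ℚ) => gP c) ''
      {v ∈ ratArr (Gdx m d e) B |
        ∃ q ∈ P, ∃ _ : Fact q.Prime, RatGood q (sp m d e) (BB q) v} ⊆
      {Φ ∈ gbox m d e B | ∃ q ∈ P, ∃ _ : Fact q.Prime, ∃ c, c ∉ BB q ∧
          GPre q m d e (toQp q Φ) ∧ GRed (toQp q Φ) c} := by
    rintro _ ⟨v, ⟨hv1, q, hq, hF, hv2⟩, rfl⟩
    refine ⟨?_, q, hq, hF, gpre_of_ratGood m d e q (BB q) v hv2⟩
    rw [gbox_eq m d e B ((le_max_right _ _).trans hB)]
    exact ⟨v, hv1, rfl⟩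
  exact_mod_cast Set.ncard_le_ncard hsub (hfin.subset fun Φ hΦ => hΦ.1)

end Pool.Agent.Helper26.GG
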