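import Pool.Agent.Helper26.GG.Defs
import Pool.Agent.Helper26.GT.Line
import Pool.Agent.Helper87.MQ.CountR
import Pool.Agent.Helper26.MQ.Lift

/-!
# The generic condition modulo `p`
-/

set_option autoImplicit false

namespace Pool.Agent.Helper26.GG

open MvPolynomial Pool.Agent.Helper26.GT Pool.Agent.Helper86.MQ Pool.Agent.Helper26.RR

variable {m d e : ℕ}

/-- the index of `x_k x_N ^ (e - 1)` -/
noncomputable def iA (d : ℕ) (he : 1 ≤ e) (i k : Fin m) : Gdx m d e :=
  ⟨i.castSucc, ⟨ex e k, by rw [degree_ex he, wd, if_neg (Fin.castSucc_ne_last i)]⟩⟩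

/-- the index of `x_N ^ e` -/
noncomputable def ic (d e : ℕ) (i : Fin m) : Gdx m d e :=
  ⟨i.castSucc, ⟨Finsupp.single (Fin.last m) e, by
    rw [Finsupp.degree_single, wd, if_neg (Fin.castSucc_ne_last i)]⟩⟩

section

variable {S S' : Type*} [CommRing S] [CommRing S']

/-- the matrix `A` -/
noncomputable def MA (he : 1 ≤ e) (c : Gdx m d e → S) : Matrix (Fin m) (Fin m) S :=
  Matrix.of fun i k => c (iA d he i k)

/-- the vector `c` -/
noncomputable def Mc (c : Gdx m d e → S) : Fin m → S := fun i => c (ic d e i)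

/-- the Krylov matrix -/
def Kr (A : Matrix (Fin m) (Fin m) S) (v : Fin m → S) : Matrix (Fin m) (Fin m) S :=
  Matrix.of fun i j => (A ^ (j : ℕ)).mulVec v i

/-- the product of the two determinants -/
noncomputable def TR (he : 1 ≤ e) (c : Gdx m d e → S) : S :=
  (MA he c).det * (Kr (MA he c) (Mc c)).det

theorem map_Kr (φ : S →+* S') (A : Matrix (Fin m) (Fin m) S) (v : Fin m → S) :
    (Kr A v).map φ = Kr (A.map φ) (fun i => φ (v i)) := by
  ext i j
  simp only [Kr, Matrix.map_apply, Matrix.of_apply]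
  rw [RingHom.map_mulVec]
  congr 1
  have : (A ^ (j : ℕ)).map φ = (A.map φ) ^ (j : ℕ) := map_pow φ.mapMatrix A j
  rw [this]

theorem map_TR (φ : S →+* S') (he : 1 ≤ e) (c : Gdx m d e → S) :
    φ (TR he c) = TR he (fun k => φ (c k)) := by
  rw [TR, TR, map_mul, RingHom.map_det, RingHom.map_det]
  congr 2
  exact map_Kr φ _ _

end

/-- a special array -/
noncomputable def c0 (m d e : ℕ) (k : Gdx m d e) : ℤ :=
  if ot (k.2 : Fin (m + 1) →₀ ℕ) = 0 then (if (k.1 : ℕ) = 0 then 1 else 0)
  else ∑ j : Fin m, (((k.2 : Fin (m + 1) →₀ ℕ) j.castSucc : ℕ) : ℤ) *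
    (if (finRotate m j).castSucc = k.1 then 1 else 0)

theorem perm_apply {n : ℕ} (σ : Equiv.Perm (Fin n)) (i j : Fin n) :
    σ.permMatrix ℤ i j = if σ i = j then 1 else 0 := by
  simp [Equiv.Perm.permMatrix, PEquiv.toMatrix_apply, Equiv.toPEquiv_apply]

theorem MA_c0 (he : 1 ≤ e) : MA he (c0 m d e) = ((finRotate m).permMatrix ℤ).transpose := by
  ext i k
  rw [MA, Matrix.of_apply, c0]
  have h1 : ot ((iA d he i k).2 : Fin (m + 1) →₀ ℕ) = 1 := ot_ex e k
  rw [h1, if_neg one_ne_zero, Matrix.transpose_apply, perm_apply]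
  have h2 : ∀ j : Fin m, ((iA d he i k).2 : Fin (m + 1) →₀ ℕ) j.castSucc =
      if j = k then 1 else 0 := ex_apply e k
  simp only [h2]
  rw [Finset.sum_eq_single k]
  · rw [if_pos rfl, Nat.cast_one, one_mul]
    have h3 : (finRotate m k).castSucc = (iA d he i k).1 ↔ finRotate m k = i := by
      rw [iA]
      exact Fin.castSucc_inj
    simp only [h3]
  · intro j _ hj
    rw [if_neg hj, Nat.cast_zero, zero_mul]
  · intro h
    exact absurd (Finset.mem_univ _) h

theorem Mc_c0 (i : Fin m) : Mc (c0 m d e) i = if (i : ℕ) = 0 then 1 else 0 := by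
  rw [Mc, c0]
  have h1 : ot ((ic d e i).2 : Fin (m + 1) →₀ ℕ) = 0 := ot_single_last e
  rw [h1, if_pos rfl]
  rfl

theorem Kr_c0 (he : 1 ≤ e) : Kr (MA he (c0 m d e)) (Mc (c0 m d e)) = 1 := by
  rcases m with _ | m
  · ext i
    exact i.elim0
  have key : ∀ j : ℕ, j < m + 1 → ∀ i : Fin (m + 1),
      ((MA he (c0 (m + 1) d e)) ^ j).mulVec (Mc (c0 (m + 1) d e)) i =
        if (i : ℕ) = j then 1 else 0 := by
    intro j
    induction j with
    | zero =>
      intro _ i
      rw [pow_zero, Matrix.one_mulVec, Mc_c0]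
    | succ j ih =>
      intro hj i
      rw [pow_succ', ← Matrix.mulVec_mulVec, Matrix.mulVec, dotProduct]
      have h1 := ih (by omega)
      simp only [h1]
      rw [Finset.sum_eq_single (⟨j, by omega⟩ : Fin (m + 1))]
      · rw [if_pos rfl, mul_one, MA_c0, Matrix.transpose_apply, perm_apply]
        have h2 : finRotate (m + 1) ⟨j, by omega⟩ = ⟨j + 1, hj⟩ := by
          rw [finRotate_apply]
          apply Fin.ext
          rw [Fin.val_add_one_of_lt]
          rw [Fin.lt_def, Fin.val_last]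
          simp only
          omega
        rw [h2]
        by_cases h3 : (i : ℕ) = j + 1
        · rw [if_pos h3, if_pos (Fin.ext h3.symm)]
        · rw [if_neg h3, if_neg fun h => h3 (by rw [← h])]
      · intro k _ hk
        rw [if_neg, mul_zero]
        exact fun h => hk (Fin.ext h)
      · intro h
        exact absurd (Finset.mem_univ _) h
  ext i j
  rw [Kr, Matrix.of_apply, key j j.2 i, Matrix.one_apply]
  simp only [Fin.ext_iff]

theorem TR_c0 (he : 1 ≤ e) : TR he (c0 m d e) ≠ 0 := by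
  rw [TR, Kr_c0, Matrix.det_one, mul_one, MA_c0, Matrix.det_transpose, Matrix.det_permutation]
  exact Units.ne_zero _

/-- the generic polynomial -/
noncomputable def GR (he : 1 ≤ e) (m d : ℕ) : MvPolynomial (Gdx m d e) ℤ := TR he X

theorem aeval_GR {S : Type*} [CommRing S] (he : 1 ≤ e) (c : Gdx m d e → S) :
    aeval c (GR he m d) = TR he c := by
  have h := map_TR ((aeval c : MvPolynomial (Gdx m d e) ℤ →ₐ[ℤ] S) :
    MvPolynomial (Gdx m d e) ℤ →+* S) he X
  have h2 : ∀ k, ((aeval c : MvPolynomial (Gdx m d e) ℤ →ₐ[ℤ] S) :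
    MvPolynomial (Gdx m d e) ℤ →+* S) (X k) = c k := fun k => aeval_X c k
  simp only [h2] at h
  exact h

theorem GR_ne_zero (he : 1 ≤ e) : GR he m d ≠ 0 := by
  intro h
  have h1 := aeval_GR he (c0 m d e)
  rw [h, map_zero] at h1
  exact TR_c0 he h1.symm

/-- The number of zeros modulo `p` of a nonzero polynomial over `ℤ`, for all primes `p`. -/
theorem count_J {J : Type*} [Fintype J] (R : MvPolynomial J ℤ) (hR : R ≠ 0) :
    ∃ C : ℕ, ∀ (p : ℕ) [Fact p.Prime],
      {c : J → ZMod p | aeval c R = 0}.ncard * p ≤ C * p ^ Fintype.card J := by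
  classical
  obtain ⟨s, hs⟩ := ne_zero_iff.1 hR
  refine ⟨max R.totalDegree (coeff s R).natAbs, fun p hp => ?_⟩
  have hset : {c : J → ZMod p | aeval c R = 0}.ncard =
      (Finset.univ.filter fun c : J → ZMod p => aeval c R = 0).card := by
    rw [← Set.ncard_coe_finset]
    congr 1
    ext c
    simp
  rw [hset]
  by_cases hps : ((coeff s R : ℤ) : ZMod p) = 0
  · have h1 : p ≤ (coeff s R).natAbs := by
      have h2 : (p : ℤ) ∣ coeff s R := (ZMod.intCast_zmod_eq_zero_iff_dvd _ _).1 hps
      exact Nat.le_of_dvd (Int.natAbs_pos.2 hs) (Int.natCast_dvd.1 h2)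
    have h3 : (Finset.univ.filter fun c : J → ZMod p => aeval c R = 0).card ≤
        p ^ Fintype.card J := by
      refine (Finset.card_le_univ _).trans ?_
      rw [Fintype.card_fun, ZMod.card]
    calc _ ≤ p ^ Fintype.card J * (coeff s R).natAbs := Nat.mul_le_mul h3 h1
      _ = (coeff s R).natAbs * p ^ Fintype.card J := mul_comm _ _
      _ ≤ _ := Nat.mul_le_mul_right _ (le_max_right _ _)
  · set Rp : MvPolynomial J (ZMod p) := MvPolynomial.map (algebraMap ℤ (ZMod p)) R with hRp
    have hRp0 : Rp ≠ 0 := by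
      intro h
      apply hps
      have h2 := congrArg (coeff s) h
      rw [hRp, coeff_map, coeff_zero] at h2
      simpa using h2
    have h4 := Pool.Agent.Helper87.MQ.zeros_card_le p Rp hRp0
    have h5 : (Finset.univ.filter fun c : J → ZMod p => aeval c R = 0) =
        (Finset.univ.filter fun c : J → ZMod p => eval c Rp = 0) := by
      ext c
      rw [Finset.mem_filter, Finset.mem_filter, hRp, eval_map, aeval_def]
    rw [h5]
    refine h4.trans (Nat.mul_le_mul_right _ ?_)
    refine le_trans ?_ (le_max_left _ _)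
    exact Finset.sup_mono (support_map_subset _ _)

/-- The generic condition holds for most arrays modulo `p`. -/
theorem bad3 (m d : ℕ) (he : 1 ≤ e) :
    ∃ C : ℕ, ∀ (p : ℕ) [Fact p.Prime],
      {c : Gdx m d e → ZMod p | TR he c = 0}.ncard * p ≤ C * p ^ Fintype.card (Gdx m d e) := by
  obtain ⟨C, hC⟩ := count_J (GR he m d) (GR_ne_zero he)
  refine ⟨C, fun p hp => ?_⟩
  have h := hC p
  simp only [aeval_GR] at h
  exact h

section

variable {p : ℕ} [hp : Fact p.Prime]

/-- The generic condition modulo `p` gives the conditions over the `p`-adic numbers. -/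
theorem dom_of (he : 1 ≤ e) (hed : e < d) (hpd : d < p)
    {Φ : Fin (m + 1) → MvPolynomial (Fin (m + 1)) ℚ_[p]} (hΦ : GPre p m d e Φ)
    {c : Gdx m d e → ZMod p} (hc : GRed Φ c) (hT : TR he c ≠ 0) : Dom d e Φ := by
  classical
  have hp1 : (1 : ℝ) < p := by exact_mod_cast hp.out.one_lt
  have hne : ∀ (i : Fin m) s, (⟨i.castSucc, s⟩ : Gdx m d e) ≠ sp m d e := by
    intro i s h
    exact Fin.castSucc_ne_last i (congrArg Sigma.fst h)
  have hz : ∀ k : Gdx m d e, ∃ z : ℤ_[p], PadicInt.toZMod z = c k ∧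
      (k ≠ sp m d e → (z : ℚ_[p]) = coeff k.2.1 (Φ k.1)) := by
    intro k
    by_cases hk : k = sp m d e
    · obtain ⟨z, hz⟩ := ZMod.ringHom_surjective (PadicInt.toZMod (p := p)) (c k)
      exact ⟨z, hz, fun h => absurd hk h⟩
    · obtain ⟨z, hz1, hz2⟩ := hc k hk
      exact ⟨z, hz2, fun _ => hz1⟩
  choose a ha1 ha2 using hz
  -- the matrices
  have hA : (MA he a).map (PadicInt.Coe.ringHom (p := p)) = cA e Φ := by
    ext i k
    exact ha2 (iA d he i k) (hne i _)
  have hcv : (fun i => PadicInt.Coe.ringHom (p := p) (Mc a i)) = cc e Φ := by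
    funext i
    exact ha2 (ic d e i) (hne i _)
  have hTa : PadicInt.toZMod (TR he a) ≠ 0 := by
    rw [map_TR]
    simp only [ha1]
    exact hT
  have hTa1 : ‖TR he a‖ = 1 := Pool.Agent.Helper26.MQ.norm_eq_one_of_toZMod _ hTa
  rw [TR, norm_mul] at hTa1
  have hdA : ‖(MA he a).det‖ = 1 := by
    refine le_antisymm (PadicInt.norm_le_one _) ?_
    calc (1 : ℝ) = ‖(MA he a).det‖ * ‖(Kr (MA he a) (Mc a)).det‖ := hTa1.symm
      _ ≤ ‖(MA he a).det‖ * 1 :=
        mul_le_mul_of_nonneg_left (PadicInt.norm_le_one _) (norm_nonneg _)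
      _ = _ := mul_one _
  have hdK : ‖(Kr (MA he a) (Mc a)).det‖ = 1 := by
    rwa [hdA, one_mul] at hTa1
  have hcoe : ∀ z : ℤ_[p], ‖PadicInt.Coe.ringHom (p := p) z‖ = ‖z‖ := fun z => rfl
  have hdetA : ‖(cA e Φ).det‖ = 1 := by
    rw [← hA, ← RingHom.mapMatrix_apply, ← RingHom.map_det, hcoe, hdA]
  have hdetK : ‖(Kr (cA e Φ) (cc e Φ)).det‖ = 1 := by
    rw [← hA, ← hcv, ← map_Kr, ← RingHom.mapMatrix_apply, ← RingHom.map_det, hcoe, hdK]
  have hca : ‖ca d Φ‖ = (p : ℝ) := hΦ.one
  have hcc : ∀ i, ‖cc e Φ i‖ ≤ 1 := fun i => hΦ.int _ _ fun h => Fin.castSucc_ne_last i h.1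
  have hcA : ∀ i k, ‖cA e Φ i k‖ ≤ 1 := fun i k =>
    hΦ.int _ _ fun h => Fin.castSucc_ne_last i h.1
  have hcg : ∀ k, ‖cg d Φ k‖ ≤ 1 := by
    intro k
    refine hΦ.int _ _ fun h => ?_
    have h1 := DFunLike.congr_fun h.2 k.castSucc
    rw [Finsupp.add_apply, Finsupp.single_eq_same, Finsupp.single_eq_of_ne
      (Fin.castSucc_ne_last k), Finsupp.single_eq_of_ne (Fin.castSucc_ne_last k)] at h1
    omega
  refine ⟨hΦ.deg, ?_, ?_, ?_⟩
  · intro h
    rw [h, norm_zero] at hca
    linarith
  · set B := Matrix.replicateCol Unit ((e : ℚ_[p]) • cc e Φ) with hB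
    set Cm := Matrix.replicateRow Unit (cg d Φ) with hCm
    set D : Matrix Unit Unit ℚ_[p] := Matrix.of fun _ _ => (d : ℚ_[p]) * ca d Φ with hD
    set M' := Matrix.fromBlocks (cA e Φ) B Cm (0 : Matrix Unit Unit ℚ_[p]) with hM'
    have h1 : (Matrix.fromBlocks (cA e Φ) B Cm D).det = M'.det + (cA e Φ).det *
        ((d : ℚ_[p]) * ca d Φ) := by
      have e1 : Matrix.fromBlocks (cA e Φ) B Cm D = M'.updateRow (Sum.inr ())
          (M' (Sum.inr ()) + Sum.elim (0 : Fin m → ℚ_[p]) fun _ => (d : ℚ_[p]) * ca d Φ) := by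
        ext i j
        rcases i with i | i
        · rw [Matrix.updateRow_ne (by simp)]
          rcases j with j | j <;> rfl
        · obtain rfl : i = () := rfl
          rw [Matrix.updateRow_self]
          rcases j with j | j
          · simp [hM']
          · simp [hM', hD]
      have e2 : M'.updateRow (Sum.inr ()) (M' (Sum.inr ())) = M' := by
        ext i j
        rcases i with i | i
        · rw [Matrix.updateRow_ne (by simp)]
        · obtain rfl : i = () := rfl
          rw [Matrix.updateRow_self]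
      have e3 : M'.updateRow (Sum.inr ())
          (Sum.elim (0 : Fin m → ℚ_[p]) fun _ => (d : ℚ_[p]) * ca d Φ) =
          Matrix.fromBlocks (cA e Φ) B (0 : Matrix Unit (Fin m) ℚ_[p]) D := by
        ext i j
        rcases i with i | i
        · rw [Matrix.updateRow_ne (by simp)]
          rcases j with j | j <;> rfl
        · obtain rfl : i = () := rfl
          rw [Matrix.updateRow_self]
          rcases j with j | j
          · simp
          · simp [hD]
      rw [e1, Matrix.det_updateRow_add, e2, e3, Matrix.det_fromBlocks_zero₂₁]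
      congr 2
      rw [Matrix.det_unique]
      rfl
    have h2 : ‖M'.det‖ ≤ 1 := by
      have hN : ∃ N : Matrix (Fin m ⊕ Unit) (Fin m ⊕ Unit) ℤ_[p],
          N.map (PadicInt.Coe.ringHom (p := p)) = M' := by
        have h3 : ∀ i j, ‖M' i j‖ ≤ 1 := by
          intro i j
          rcases i with i | i <;> rcases j with j | j
          · exact hcA i j
          · have : M' (Sum.inl i) (Sum.inr j) = (e : ℚ_[p]) * cc e Φ i := rfl
            rw [this, norm_mul]
            exact mul_le_one₀ (by simpa using Padic.norm_int_le_one (p := p) (e : ℤ)) (norm_nonneg _) (hcc i)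
          · exact hcg j
          · have : M' (Sum.inr i) (Sum.inr j) = 0 := rfl
            rw [this, norm_zero]
            exact zero_le_one
        exact ⟨Matrix.of fun i j => ⟨M' i j, h3 i j⟩, rfl⟩
      obtain ⟨N, hN⟩ := hN
      rw [← hN, ← RingHom.mapMatrix_apply, ← RingHom.map_det, hcoe]
      exact PadicInt.norm_le_one _
    have h3 : ‖(cA e Φ).det * ((d : ℚ_[p]) * ca d Φ)‖ = (p : ℝ) := by
      have hdn : ‖((d : ℕ) : ℚ_[p])‖ = 1 := by
        rw [Padic.norm_natCast_eq_one_iff]
        refine (Nat.Prime.coprime_iff_not_dvd hp.out).2 fun h => ?_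
        have := Nat.le_of_dvd (by omega) h
        omega
      rw [norm_mul, norm_mul, hdetA, hdn, hca, one_mul, one_mul]
    rw [h1]
    intro h4
    have h5 : ‖M'.det‖ = (p : ℝ) := by
      rw [eq_neg_of_add_eq_zero_left h4, norm_neg, h3]
    rw [h5] at h2
    linarith
  · have h1 : (Kr (cA e Φ) (cc e Φ)).det ≠ 0 := by
      intro h
      rw [h, norm_zero] at hdetK
      exact zero_ne_one hdetK
    exact Matrix.linearIndependent_cols_of_det_ne_zero h1

end

end Pool.Agent.Helper26.GG
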