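import Pool.Agent.Helper26.GG.Density
import Pool.Agent.Helper26.GG.Gen
import Pool.Agent.Helper26.GT.Term
import Pool.Agent.Helper52.GG.Counts
import Pool.Agent.Helper86.GG.Trap
import Pool.Agent.Helper87.MQ.Down
import Pool.Agent.Helper87.MQ.FieldEmb

/-!
# One hundred percent of the maps with a dominant last component
-/

set_option autoImplicit false

namespace Pool.Agent.Helper26.GG

open MvPolynomial Pool.Agent.Helper26.GT Pool.Agent.Helper86.MQ
open Pool.Agent.Helper87.MQ (toC toQp exists_down exists_field_emb)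
open Pool.Agent.Helper87.DMLP (primesFor not_summable_primesFor prime_of_mem_primesFor)

theorem gg_main (m d e : ℕ) (he : 1 ≤ e) (hed : e < d) (A : Finset ℂ) (ε : ℝ) (hε : 0 < ε) :
    ∃ K : ℕ, ∀ B : ℕ, K ≤ B → (gbox m d e B).Finite ∧
      (1 - ε) * ((gbox m d e B).ncard : ℝ) ≤
        (({Φ ∈ gbox m d e B |
          ∀ α : Fin (m + 1) → ℂ, (∀ i, α i ∈ Subfield.closure (A : Set ℂ)) →
            ∀ F : MvPolynomial (Fin (m + 1)) ℂ, F ≠ 0 →
              {n | eval ((pm (toC Φ))^[n] α) F = 0}.Finite}).ncard : ℝ) := by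
  classical
  obtain ⟨C₃, hC₃⟩ := bad3 m d he
  set C : ℕ := (m + 2) + 2 * (m + 1) + C₃ with hC
  obtain ⟨P, K, hP, h⟩ := g_density m d e C (primesFor A) (not_summable_primesFor A)
    (prime_of_mem_primesFor A) (d + 1) ε hε
  set BB : ∀ (q : ℕ) [Fact q.Prime], Finset (Gdx m d e → ZMod q) := fun q _ =>
    Finset.univ.filter fun c => ¬ T1 c ∨ ¬ T2 c ∨ TR he c = 0 with hBB
  have hcard : ∀ (q : ℕ) [Fact q.Prime],
      (BB q).card * q ≤ C * q ^ Fintype.card (Gdx m d e) := by
    intro q hq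
    have h1 := Pool.Agent.Helper52.GG.bad1 (F := ZMod q) (m := m) he hed
    have h2 := Pool.Agent.Helper52.GG.bad2 (F := ZMod q) (m := m) he hed
    have h3 := hC₃ q
    rw [ZMod.card, Fintype.card_fun, ZMod.card] at h1 h2
    have h4 : (BB q).card ≤ {c : Gdx m d e → ZMod q | ¬ T1 c}.ncard +
        {c : Gdx m d e → ZMod q | ¬ T2 c}.ncard +
        {c : Gdx m d e → ZMod q | TR he c = 0}.ncard := by
      rw [← Set.ncard_coe_finset]
      refine (Set.ncard_le_ncard (t := ({c : Gdx m d e → ZMod q | ¬ T1 c} ∪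
        {c : Gdx m d e → ZMod q | ¬ T2 c}) ∪ {c : Gdx m d e → ZMod q | TR he c = 0}) ?_
        (Set.toFinite _)).trans ?_
      · intro c hc
        rw [hBB, Finset.mem_coe, Finset.mem_filter] at hc
        rcases hc.2 with h5 | h5 | h5
        · exact Or.inl (Or.inl h5)
        · exact Or.inl (Or.inr h5)
        · exact Or.inr h5
      · exact (Set.ncard_union_le _ _).trans
          (Nat.add_le_add_right (Set.ncard_union_le _ _) _)
    calc (BB q).card * q ≤ ({c : Gdx m d e → ZMod q | ¬ T1 c}.ncard +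
        {c : Gdx m d e → ZMod q | ¬ T2 c}.ncard +
        {c : Gdx m d e → ZMod q | TR he c = 0}.ncard) * q := Nat.mul_le_mul_right _ h4
      _ ≤ _ := by
        rw [add_mul, add_mul, hC, add_mul, add_mul]
        exact Nat.add_le_add (Nat.add_le_add h1 h2) h3
  refine ⟨K, fun B hB => ?_⟩
  obtain ⟨hfin, hcount⟩ := h BB hcard B hB
  refine ⟨hfin, hcount.trans ?_⟩
  refine Nat.cast_le.2 (Set.ncard_le_ncard ?_ (hfin.subset fun f hf => hf.1))
  rintro Φ ⟨hΦ, q, hq, hF, c, hc, hpre, hred⟩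
  refine ⟨hΦ, fun α hα F hF0 => ?_⟩
  have hcB : T1 c ∧ T2 c ∧ TR he c ≠ 0 := by
    by_contra hcon
    refine hc ?_
    rw [hBB, Finset.mem_filter]
    refine ⟨Finset.mem_univ _, ?_⟩
    by_contra h5
    push Not at h5
    exact hcon ⟨h5.1, h5.2.1, h5.2.2⟩
  obtain ⟨_, ⟨em⟩⟩ := exists_field_emb A q (hP q hq).1
  obtain ⟨G, hG0, -, hG⟩ := exists_down (Subfield.closure (A : Set ℂ)) F hF0
  have hG0' : MvPolynomial.map em G ≠ 0 := fun h =>
    hG0 (map_injective em em.injective (by rw [h, map_zero]))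
  have hdom : Dom d e (toQp q Φ) := dom_of he hed (hP q hq).2.2 hpre hred hcB.2.2
  obtain ⟨k, hk⟩ := term he hed hdom hG0'
  have hd : 2 ≤ d := by omega
  have h2 := Pool.Agent.Helper86.GG.gfinite hd hed hpre
    (Pool.Agent.Helper86.GG.gtrap hd he hed hpre hred hcB.1 hcB.2.1
      (fun i => em ⟨α i, hα i⟩)) k hk
  exact h2.subset fun n hn => hG q em Φ (fun i => ⟨α i, hα i⟩) n hn

end Pool.Agent.Helper26.GG
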